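import Mathlib

/-!
# Square-sided dice pairs: the exact criterion for the tuples `(2, 2, 1, 1)` and `(2, 1, 2, 1)`

For `t = (2, 2, 1, 1)` one has `A_t = x [q](x^p) [p](x^r) [p q](x^r)` where
`[n](y) = 1 + y + ... + y^(n-1)`, and `B_t̄ = x φ_r(x)^2 φ_{qr}(x^p)`.
If `p = 2` and `r = 2 q k + 1` then `B_t̄ = x (2 x [r](x) [k](x^(2q)) [q](x^(2r)) + [r](x^(2q)))`.
In all other cases the coefficient of `x^(n+1)` in `B_t̄` is negative for
`n = 2 r + p - 1 - (r mod p q)`.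
-/

set_option autoImplicit false

open Polynomial

namespace Pool.Agent.Results.MP_eda2d2_co.ExactCriterion

/-- The polynomial `M_t = φ_{pqr}^d φ_{pq}^a φ_{pr}^b φ_{qr}^c` of `t = (a, b, c, d)`. -/
noncomputable def M (p q r : ℕ) (t : ℕ × ℕ × ℕ × ℕ) : ℤ[X] :=
  cyclotomic (p * q * r) ℤ ^ t.2.2.2 * cyclotomic (p * q) ℤ ^ t.1 *
    cyclotomic (p * r) ℤ ^ t.2.1 * cyclotomic (q * r) ℤ ^ t.2.2.1

/-- `A_t = x (φ_p φ_q)^2 M_t` -/
noncomputable def A (p q r : ℕ) (t : ℕ × ℕ × ℕ × ℕ) : ℤ[X] :=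
  X * (cyclotomic p ℤ * cyclotomic q ℤ) ^ 2 * M p q r t

/-- `B_t = x φ_r^2 M_t` -/
noncomputable def B (p q r : ℕ) (t : ℕ × ℕ × ℕ × ℕ) : ℤ[X] :=
  X * cyclotomic r ℤ ^ 2 * M p q r t

/-- `t̄ = (2 - a, 2 - b, 2 - c, 2 - d)` -/
def bar (t : ℕ × ℕ × ℕ × ℕ) : ℕ × ℕ × ℕ × ℕ := (2 - t.1, 2 - t.2.1, 2 - t.2.2.1, 2 - t.2.2.2)

/-- the ten tuples of `T` -/
def T : Set (ℕ × ℕ × ℕ × ℕ) :=
  {t | t = (2, 0, 0, 0) ∨ t = (2, 1, 0, 1) ∨ t = (2, 0, 1, 1) ∨ t = (2, 1, 1, 1) ∨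
    ∃ b c : ℕ, b ≤ 2 ∧ c ≤ 2 ∧ 2 ≤ b + c ∧ t = (2, b, c, 2)}

/-- the set `S` of all `(a, b, c, d) ∈ {0,1,2}^4` with `2 + d ≤ a + b + c ≤ 4 + d` which are neither
in `T` nor equal to `(1, 1, 1, 1)` -/
def S : Set (ℕ × ℕ × ℕ × ℕ) :=
  {t | (t.1 ≤ 2 ∧ t.2.1 ≤ 2 ∧ t.2.2.1 ≤ 2 ∧ t.2.2.2 ≤ 2) ∧
    (2 + t.2.2.2 ≤ t.1 + t.2.1 + t.2.2.1 ∧ t.1 + t.2.1 + t.2.2.1 ≤ 4 + t.2.2.2) ∧
    t ∉ T ∧ t ≠ (1, 1, 1, 1)}

/-- both members of the pair of `t` have nonnegative coefficients -/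
def GoodPair (p q r : ℕ) (t : ℕ × ℕ × ℕ × ℕ) : Prop :=
  (∀ n, 0 ≤ (A p q r t).coeff n) ∧ ∀ n, 0 ≤ (B p q r (bar t)).coeff n

/-! ### Nonnegative polynomials -/

/-- nonnegative coefficients -/
def NN (P : ℤ[X]) : Prop := ∀ n, 0 ≤ P.coeff n

theorem NN_mul {P Q : ℤ[X]} (hP : NN P) (hQ : NN Q) : NN (P * Q) := by
  intro n
  rw [coeff_mul]
  exact Finset.sum_nonneg fun x _ => mul_nonneg (hP _) (hQ _)

theorem NN_add {P Q : ℤ[X]} (hP : NN P) (hQ : NN Q) : NN (P + Q) := by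
  intro n
  rw [coeff_add]
  exact add_nonneg (hP n) (hQ n)

theorem NN_X : NN X := by
  intro n
  rw [coeff_X]
  split_ifs <;> norm_num

theorem NN_pow (k : ℕ) : NN (X ^ k) := by
  intro n
  rw [coeff_X_pow]
  split_ifs <;> norm_num

/-- `[n](x^m)` -/
noncomputable def gs (n m : ℕ) : ℤ[X] := ∑ i ∈ Finset.range n, (X ^ m) ^ i

theorem NN_gs (n m : ℕ) : NN (gs n m) := by
  intro k
  unfold gs
  rw [finsetSum_coeff]
  apply Finset.sum_nonneg
  intro i _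
  rw [← pow_mul]
  exact NN_pow _ k

theorem gs_mul (n m : ℕ) : gs n m * (X ^ m - 1) = X ^ (m * n) - 1 := by
  unfold gs
  rw [geom_sum_mul, ← pow_mul]

theorem ne_zero' {m : ℕ} (hm : 0 < m) : (X ^ m - 1 : ℤ[X]) ≠ 0 :=
  X_pow_sub_C_ne_zero hm 1

/-! ### The cyclotomic identities -/

theorem cyc1 {r : ℕ} (hr : r.Prime) : cyclotomic r ℤ * (X ^ 1 - 1) = X ^ r - 1 := by
  have : Fact r.Prime := ⟨hr⟩
  rw [pow_one, cyclotomic_prime_mul_X_sub_one]

theorem cyc2 {q r : ℕ} (hq : q.Prime) (hr : r.Prime) (h : q ≠ r) :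
    cyclotomic (q * r) ℤ * ((X ^ q - 1) * (X ^ r - 1)) = (X ^ (q * r) - 1) * (X ^ 1 - 1) := by
  have h1 := cyclotomic_expand_eq_cyclotomic_mul hq (n := r)
    (fun hd => h ((Nat.prime_dvd_prime_iff_eq hq hr).1 hd)) ℤ
  have h2 := congrArg (expand ℤ q) (cyc1 hr)
  simp only [map_mul, map_sub, map_one, map_pow, expand_X, pow_one] at h2
  rw [h1, ← pow_mul] at h2
  have h3 := cyc1 hr
  rw [mul_comm r q] at h2
  calc cyclotomic (q * r) ℤ * ((X ^ q - 1) * (X ^ r - 1))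
      = (cyclotomic (q * r) ℤ * cyclotomic r ℤ * (X ^ q - 1)) * (X ^ 1 - 1) := by
        rw [← h3]; ring
    _ = (X ^ (q * r) - 1) * (X ^ 1 - 1) := by rw [h2]

theorem cyc3 {p q r : ℕ} (hp : p.Prime) (hq : q.Prime) (hr : r.Prime) (hpq : p ≠ q) (hpr : p ≠ r)
    (hqr : q ≠ r) :
    cyclotomic (p * q * r) ℤ * cyclotomic (q * r) ℤ * ((X ^ (p * q) - 1) * (X ^ (p * r) - 1)) =
      (X ^ (p * q * r) - 1) * (X ^ p - 1) := by
  have h0 : ¬ p ∣ q * r := by
    intro hd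
    rcases (hp.dvd_mul).1 hd with h | h
    · exact hpq ((Nat.prime_dvd_prime_iff_eq hp hq).1 h)
    · exact hpr ((Nat.prime_dvd_prime_iff_eq hp hr).1 h)
  have h1 := cyclotomic_expand_eq_cyclotomic_mul hp h0 ℤ
  have h2 := congrArg (expand ℤ p) (cyc2 hq hr hqr)
  simp only [map_mul, map_sub, map_one, map_pow, expand_X, pow_one, ← pow_mul] at h2
  rw [h1] at h2
  rw [mul_comm (q * r) p, ← mul_assoc p q r] at h2
  exact h2

/-! ### The first member -/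

theorem A_formula {p q r : ℕ} (hp : p.Prime) (hq : q.Prime) (hr : r.Prime) (hpq : p ≠ q)
    (hpr : p ≠ r) (hqr : q ≠ r) :
    A p q r (2, 2, 1, 1) = X * (gs q p * gs p r * gs (p * q) r) := by
  have e1 := cyc2 hp hq hpq
  have e2 := cyc2 hp hr hpr
  have e3 := cyc3 hp hq hr hpq hpr hqr
  have e4 := cyc1 hp
  have e5 := cyc1 hq
  have g1 := gs_mul q p
  have g2 := gs_mul p r
  have g3 := gs_mul (p * q) r
  rw [mul_comm r p] at g2
  rw [mul_comm r (p * q)] at g3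
  unfold A M
  simp only [pow_one]
  set fp := cyclotomic p ℤ
  set fq := cyclotomic q ℤ
  set fpq := cyclotomic (p * q) ℤ
  set fpr := cyclotomic (p * r) ℤ
  set fqr := cyclotomic (q * r) ℤ
  set fpqr := cyclotomic (p * q * r) ℤ
  have n1 : (X ^ 1 - 1 : ℤ[X]) ≠ 0 := ne_zero' one_pos
  have np : (X ^ p - 1 : ℤ[X]) ≠ 0 := ne_zero' hp.pos
  have nq : (X ^ q - 1 : ℤ[X]) ≠ 0 := ne_zero' hq.pos
  have nr : (X ^ r - 1 : ℤ[X]) ≠ 0 := ne_zero' hr.pos
  have npq : (X ^ (p * q) - 1 : ℤ[X]) ≠ 0 := ne_zero' (Nat.mul_pos hp.pos hq.pos)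
  have npr : (X ^ (p * r) - 1 : ℤ[X]) ≠ 0 := ne_zero' (Nat.mul_pos hp.pos hr.pos)
  rw [pow_one] at e1 e2 e4 e5 n1
  generalize (X ^ p - 1 : ℤ[X]) = a at *
  generalize (X ^ q - 1 : ℤ[X]) = b at *
  generalize (X ^ r - 1 : ℤ[X]) = c at *
  generalize (X ^ (p * q) - 1 : ℤ[X]) = d at *
  generalize (X ^ (p * r) - 1 : ℤ[X]) = e at *
  generalize (X ^ (p * q * r) - 1 : ℤ[X]) = f at *
  generalize (X - 1 : ℤ[X]) = u at *
  -- `fp u = a`, `fq u = b`, `fpq a b = d u`, `fpr a c = e u`, `fpqr fqr (d e) = f a`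
  have e6 : fp * fq * fpq * u = d := by
    apply mul_right_cancel₀ n1
    calc fp * fq * fpq * u * u = (fp * u) * (fq * u) * fpq := by ring
      _ = a * b * fpq := by rw [e4, e5]
      _ = fpq * (a * b) := by ring
      _ = d * u := e1
  have hD : (u ^ 2 * (a * c) ^ 2 * (d * e) : ℤ[X]) ≠ 0 :=
    mul_ne_zero (mul_ne_zero (pow_ne_zero _ n1) (pow_ne_zero _ (mul_ne_zero np nr)))
      (mul_ne_zero npq npr)
  apply mul_right_cancel₀ hD
  calc X * (fp * fq) ^ 2 * (fpqr * fpq ^ 2 * fpr ^ 2 * fqr) * (u ^ 2 * (a * c) ^ 2 * (d * e))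
      = X * (fp * fq * fpq * u) ^ 2 * (fpr * (a * c)) ^ 2 * (fpqr * fqr * (d * e)) := by ring
    _ = X * d ^ 2 * (e * u) ^ 2 * (f * a) := by rw [e6, e2, e3]
    _ = X * (d * e * f) * (u ^ 2 * a * d * e) := by ring
    _ = X * ((gs q p * a) * (gs p r * c) * (gs (p * q) r * c)) * (u ^ 2 * a * d * e) := by
        rw [g1, g2, g3]
    _ = X * (gs q p * gs p r * gs (p * q) r) * (u ^ 2 * (a * c) ^ 2 * (d * e)) := by ring

theorem A_NN {p q r : ℕ} (hp : p.Prime) (hq : q.Prime) (hr : r.Prime) (hpq : p ≠ q)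
    (hpr : p ≠ r) (hqr : q ≠ r) : NN (A p q r (2, 2, 1, 1)) := by
  rw [A_formula hp hq hr hpq hpr hqr]
  exact NN_mul NN_X (NN_mul (NN_mul (NN_gs _ _) (NN_gs _ _)) (NN_gs _ _))

/-! ### The second member -/

/-- `B_t̄ / x` -/
noncomputable def B' (p q r : ℕ) : ℤ[X] :=
  cyclotomic r ℤ ^ 2 * (cyclotomic (p * q * r) ℤ * cyclotomic (q * r) ℤ)

theorem B_eq (p q r : ℕ) : B p q r (bar (2, 2, 1, 1)) = X * B' p q r := by
  unfold B M bar B'
  norm_num
  ring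

theorem B'_id {p q r : ℕ} (hp : p.Prime) (hq : q.Prime) (hr : r.Prime) (hpq : p ≠ q)
    (hpr : p ≠ r) (hqr : q ≠ r) :
    B' p q r * ((X ^ 1 - 1) ^ 2 * ((X ^ (p * q) - 1) * (X ^ (p * r) - 1))) =
      (X ^ r - 1) ^ 2 * ((X ^ (p * q * r) - 1) * (X ^ p - 1)) := by
  have e3 := cyc3 hp hq hr hpq hpr hqr
  have e4 := cyc1 hr
  unfold B'
  calc cyclotomic r ℤ ^ 2 * (cyclotomic (p * q * r) ℤ * cyclotomic (q * r) ℤ) *
        ((X ^ 1 - 1) ^ 2 * ((X ^ (p * q) - 1) * (X ^ (p * r) - 1)))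
      = (cyclotomic r ℤ * (X ^ 1 - 1)) ^ 2 * (cyclotomic (p * q * r) ℤ * cyclotomic (q * r) ℤ *
        ((X ^ (p * q) - 1) * (X ^ (p * r) - 1))) := by ring
    _ = _ := by rw [e3, e4]

/-- the good case -/
theorem B'_good {q r k : ℕ} (hq : q.Prime) (hr : r.Prime) (h2q : 2 ≠ q) (h2r : 2 ≠ r) (hqr : q ≠ r)
    (h : r = 2 * q * k + 1) :
    B' 2 q r = 2 * X * gs r 1 * gs k (2 * q) * gs q (2 * r) + gs r (2 * q) := by
  have e := B'_id Nat.prime_two hq hr h2q h2r hqr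
  have g1 := gs_mul r 1
  have g2 := gs_mul k (2 * q)
  have g3 := gs_mul q (2 * r)
  have g4 := gs_mul r (2 * q)
  rw [one_mul] at g1
  have hk : 2 * q * k = r - 1 := by omega
  have e5 : 2 * r * q = 2 * q * r := by ring
  rw [e5] at g3
  have hX : (X : ℤ[X]) * X ^ (2 * q * k) = X ^ r := by
    rw [← pow_succ', ← h]
  have n1 : (X ^ 1 - 1 : ℤ[X]) ≠ 0 := ne_zero' one_pos
  have npq : (X ^ (2 * q) - 1 : ℤ[X]) ≠ 0 := ne_zero' (Nat.mul_pos two_pos hq.pos)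
  have npr : (X ^ (2 * r) - 1 : ℤ[X]) ≠ 0 := ne_zero' (Nat.mul_pos two_pos hr.pos)
  have hD : ((X ^ 1 - 1) ^ 2 * ((X ^ (2 * q) - 1) * (X ^ (2 * r) - 1)) : ℤ[X]) ≠ 0 :=
    mul_ne_zero (pow_ne_zero _ n1) (mul_ne_zero npq npr)
  apply mul_right_cancel₀ hD
  rw [e]
  have hr2 : (X ^ (2 * r) : ℤ[X]) = (X ^ r) ^ 2 := by rw [mul_comm, pow_mul]
  calc (X ^ r - 1) ^ 2 * ((X ^ (2 * q * r) - 1) * (X ^ 2 - 1))
      = 2 * X * (X ^ r - 1) * (X ^ (2 * q * k) - 1) * (X ^ (2 * q * r) - 1) * (X ^ 1 - 1) +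
        (X ^ (2 * q * r) - 1) * (X ^ 1 - 1) ^ 2 * (X ^ (2 * r) - 1) := by
        have h5 : (2 * X * (X ^ r - 1) * (X ^ (2 * q * k) - 1) * (X ^ (2 * q * r) - 1) *
            (X ^ 1 - 1) : ℤ[X]) = 2 * (X * X ^ (2 * q * k) - X) * (X ^ r - 1) *
              (X ^ (2 * q * r) - 1) * (X - 1) := by ring
        rw [h5, hX, hr2]
        ring
    _ = 2 * X * (gs r 1 * (X ^ 1 - 1)) * (gs k (2 * q) * (X ^ (2 * q) - 1)) *
          (gs q (2 * r) * (X ^ (2 * r) - 1)) * (X ^ 1 - 1) +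
        (gs r (2 * q) * (X ^ (2 * q) - 1)) * (X ^ 1 - 1) ^ 2 * (X ^ (2 * r) - 1) := by
        rw [g1, g2, g3, g4]
    _ = _ := by ring

theorem B'_NN {q r : ℕ} (hq : q.Prime) (hr : r.Prime) (h2q : 2 ≠ q) (h2r : 2 ≠ r) (hqr : q ≠ r)
    (h : r % (2 * q) = 1) : NN (B' 2 q r) := by
  have h1 : r = 2 * q * (r / (2 * q)) + 1 := by
    have := Nat.div_add_mod r (2 * q)
    omega
  rw [B'_good hq hr h2q h2r hqr h1]
  refine NN_add (NN_mul (NN_mul (NN_mul ?_ (NN_gs _ _)) (NN_gs _ _)) (NN_gs _ _)) (NN_gs _ _)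
  rw [two_mul]
  exact NN_add NN_X NN_X

/-! ### The bad case: power series -/

/-- the inverse of `(1 - x)(1 - x^m)` -/
noncomputable def cs (m : ℕ) : PowerSeries ℤ := PowerSeries.mk fun n => ((n / m + 1 : ℕ) : ℤ)

theorem cs_mul {m : ℕ} (hm : 0 < m) :
    cs m * ((1 - PowerSeries.X) * (1 - PowerSeries.X ^ m)) = 1 := by
  have h1 : cs m * (1 - PowerSeries.X ^ m) = PowerSeries.mk (1 : ℕ → ℤ) := by
    ext n
    have h9 : PowerSeries.coeff n (PowerSeries.mk (1 : ℕ → ℤ)) = 1 := by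
      rw [PowerSeries.coeff_mk]
      rfl
    rw [mul_sub, mul_one, map_sub, PowerSeries.coeff_mul_X_pow', cs, h9, PowerSeries.coeff_mk]
    by_cases h : m ≤ n
    · rw [if_pos h, PowerSeries.coeff_mk]
      have h2 : n / m = (n - m) / m + 1 := by
        rw [← Nat.add_div_right _ hm, Nat.sub_add_cancel h]
      rw [h2]
      push_cast
      ring
    · rw [if_neg h, Nat.div_eq_of_lt (not_le.1 h)]
      norm_num
  rw [mul_comm (1 - PowerSeries.X), ← mul_assoc, h1, PowerSeries.mk_one_mul_one_sub_eq_one]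

/-- the series `(1 - x^r)^2 / ((1 - x)(1 - x^m))` times `[q](x^(pr))` -/
noncomputable def G (m e q r : ℕ) : PowerSeries ℤ :=
  (1 - PowerSeries.X ^ r) ^ 2 * cs m * ((gs q e : ℤ[X]) : PowerSeries ℤ)

theorem coe_sub_one (m : ℕ) : ((X ^ m - 1 : ℤ[X]) : PowerSeries ℤ) = PowerSeries.X ^ m - 1 := by
  simp

/-- `B' = [p](x) G` -/
theorem B'_series {p q r : ℕ} (hp : p.Prime) (hq : q.Prime) (hr : r.Prime) (hpq : p ≠ q)
    (hpr : p ≠ r) (hqr : q ≠ r) :
    ((B' p q r : ℤ[X]) : PowerSeries ℤ) = ((gs p 1 : ℤ[X]) : PowerSeries ℤ) * G (p * q) (p * r) q r := by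
  have e := congrArg (fun P : ℤ[X] => (P : PowerSeries ℤ)) (B'_id hp hq hr hpq hpr hqr)
  have g1 := congrArg (fun P : ℤ[X] => (P : PowerSeries ℤ)) (gs_mul p 1)
  have g2 := congrArg (fun P : ℤ[X] => (P : PowerSeries ℤ)) (gs_mul q (p * r))
  simp only [Polynomial.coe_mul, Polynomial.coe_pow, coe_sub_one, one_mul] at e g1 g2
  have e5 : p * r * q = p * q * r := by ring
  rw [e5] at g2
  have g3 := cs_mul (Nat.mul_pos hp.pos hq.pos)
  have hne : ∀ m : ℕ, 0 < m → (PowerSeries.X ^ m - 1 : PowerSeries ℤ) ≠ 0 := by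
    intro m hm h
    have h1 := congrArg (PowerSeries.coeff 0) h
    rw [map_sub, PowerSeries.coeff_X_pow, if_neg (by omega)] at h1
    simp at h1
  have hD : ((PowerSeries.X ^ 1 - 1) ^ 2 * ((PowerSeries.X ^ (p * q) - 1) *
      (PowerSeries.X ^ (p * r) - 1)) : PowerSeries ℤ) ≠ 0 :=
    mul_ne_zero (pow_ne_zero _ (hne 1 one_pos)) (mul_ne_zero (hne _ (Nat.mul_pos hp.pos hq.pos))
      (hne _ (Nat.mul_pos hp.pos hr.pos)))
  apply mul_right_cancel₀ hD
  rw [e]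
  unfold G
  calc (PowerSeries.X ^ r - 1) ^ 2 * ((PowerSeries.X ^ (p * q * r) - 1) * (PowerSeries.X ^ p - 1))
      = (1 - PowerSeries.X ^ r : PowerSeries ℤ) ^ 2 *
          (((gs q (p * r) : ℤ[X]) : PowerSeries ℤ) * (PowerSeries.X ^ (p * r) - 1)) *
          (((gs p 1 : ℤ[X]) : PowerSeries ℤ) * (PowerSeries.X ^ 1 - 1)) *
          (cs (p * q) * ((1 - PowerSeries.X) * (1 - PowerSeries.X ^ (p * q)))) := by
        rw [g1, g2, g3]; ring
    _ = _ := by ring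

/-- low coefficients of `G` -/
theorem G_coeff {m e q r n : ℕ} (hq : 0 < q) (hn : n < e) :
    PowerSeries.coeff n (G m e q r) = ((n / m + 1 : ℕ) : ℤ) -
      2 * (if r ≤ n then (((n - r) / m + 1 : ℕ) : ℤ) else 0) +
      (if 2 * r ≤ n then (((n - 2 * r) / m + 1 : ℕ) : ℤ) else 0) := by
  have h1 : ((gs q e : ℤ[X]) : PowerSeries ℤ) =
      1 + PowerSeries.X ^ e * ((∑ i ∈ Finset.range (q - 1), (X ^ e) ^ i : ℤ[X]) : PowerSeries ℤ) := by
    obtain ⟨k, rfl⟩ : ∃ k, q = k + 1 := ⟨q - 1, by omega⟩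
    have h2 : gs (k + 1) e = 1 + X ^ e * ∑ i ∈ Finset.range k, (X ^ e) ^ i := by
      unfold gs
      rw [Finset.sum_range_succ', pow_zero, Finset.mul_sum, add_comm]
      congr 1
      apply Finset.sum_congr rfl
      intro i _
      rw [pow_succ']
    rw [h2, Nat.add_sub_cancel]
    simp
  unfold G
  rw [h1, mul_add, mul_one, map_add]
  have h3 : ∀ F H : PowerSeries ℤ, PowerSeries.coeff n (F * (PowerSeries.X ^ e * H)) = 0 := by
    intro F H
    rw [mul_left_comm, PowerSeries.coeff_X_pow_mul', if_neg (by omega)]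
  rw [h3, add_zero]
  have h4 : ((1 - PowerSeries.X ^ r) ^ 2 * cs m : PowerSeries ℤ) =
      cs m - (PowerSeries.X ^ r * cs m + PowerSeries.X ^ r * cs m) +
        PowerSeries.X ^ (2 * r) * cs m := by
    rw [two_mul r, pow_add]
    ring
  rw [h4, map_add, map_sub, map_add, PowerSeries.coeff_X_pow_mul', PowerSeries.coeff_X_pow_mul']
  simp only [cs, PowerSeries.coeff_mk]
  split_ifs <;> ring

theorem coeff_B' {p q r : ℕ} (hp : p.Prime) (hq : q.Prime) (hr : r.Prime) (hpq : p ≠ q)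
    (hpr : p ≠ r) (hqr : q ≠ r) (n : ℕ) (hn : p ≤ n + 1) :
    (B' p q r).coeff n = ∑ i ∈ Finset.range p, PowerSeries.coeff (n - i) (G (p * q) (p * r) q r) := by
  rw [← Polynomial.coeff_coe, B'_series hp hq hr hpq hpr hqr]
  have h1 : ((gs p 1 : ℤ[X]) : PowerSeries ℤ) = ∑ i ∈ Finset.range p, PowerSeries.X ^ i := by
    unfold gs
    simp only [pow_one]
    rw [← Polynomial.coeToPowerSeries.ringHom_apply, map_sum]
    simp
  rw [h1, Finset.sum_mul, map_sum]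
  apply Finset.sum_congr rfl
  intro i hi
  have hi' := Finset.mem_range.1 hi
  rw [PowerSeries.coeff_X_pow_mul', if_pos (by omega)]

/-- the coefficients of `G` just after `r + m ⌊r/m⌋` -/
theorem G_window {m e q r i p : ℕ} (hq : 0 < q) (hp : 0 < p) (hm : 2 * p ≤ m) (hr : r % m ≠ 0)
    (hi : i < p) (hn : r + m * (r / m) + i < e) :
    PowerSeries.coeff (r + m * (r / m) + i) (G m e q r) ≤ 0 ∧
    (i = 0 → PowerSeries.coeff (r + m * (r / m) + i) (G m e q r) ≤ -1) := by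
  have hm0 : 0 < m := by omega
  set k := r / m with hk
  set ρ := r % m with hρ
  have hrk : m * k + ρ = r := Nat.div_add_mod r m
  have hρm : ρ < m := Nat.mod_lt r hm0
  rw [G_coeff hq hn]
  have h1 : (r + m * k + i) / m = 2 * k + (ρ + i) / m := by
    have : r + m * k + i = (ρ + i) + m * (2 * k) := by
      rw [← hrk]; ring
    rw [this, Nat.add_mul_div_left _ _ hm0]
    ring
  have h2 : (r + m * k + i - r) / m = k := by
    have : r + m * k + i - r = i + m * k := by omega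
    rw [this, Nat.add_mul_div_left _ _ hm0, Nat.div_eq_of_lt (by omega), zero_add]
  rw [if_pos (by omega : r ≤ r + m * k + i), h1, h2]
  by_cases h3 : 2 * r ≤ r + m * k + i
  · have h4 : ρ ≤ i := by omega
    have h5 : (r + m * k + i - 2 * r) / m = 0 := Nat.div_eq_of_lt (by omega)
    have h6 : (ρ + i) / m = 0 := Nat.div_eq_of_lt (by omega)
    rw [if_pos h3, h5, h6]
    constructor
    · push_cast
      linarith
    · intro h7
      omega
  · rw [if_neg h3]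
    have h6 : (ρ + i) / m ≤ 1 := by
      have : ρ + i < m * 2 := by omega
      have := Nat.div_lt_of_lt_mul this
      omega
    constructor
    · have h7 : (((ρ + i) / m : ℕ) : ℤ) ≤ 1 := by exact_mod_cast h6
      push_cast at h7 ⊢
      linarith
    · intro h7
      have h8 : (ρ + i) / m = 0 := Nat.div_eq_of_lt (by omega)
      rw [h8]
      push_cast
      linarith

/-- the bad case -/
theorem B'_neg {p q r : ℕ} (hp : p.Prime) (hq : q.Prime) (hr : r.Prime) (hpq : p ≠ q)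
    (hpr : p ≠ r) (hqr : q ≠ r) (h : ¬ (p = 2 ∧ r % (p * q) = 1)) :
    (B' p q r).coeff (r + p * q * (r / (p * q)) + (p - 1)) < 0 := by
  have hp2 := hp.two_le
  have hq2 := hq.two_le
  have hr2 := hr.two_le
  set m := p * q with hm
  have hm0 : 0 < m := Nat.mul_pos hp.pos hq.pos
  have hmp : 2 * p ≤ m := by rw [hm, mul_comm p q]; exact Nat.mul_le_mul_right p hq2
  have hρ : r % m ≠ 0 := by
    intro h0
    have h1 : p ∣ r := (Dvd.intro q rfl : p ∣ m).trans (Nat.dvd_of_mod_eq_zero h0)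
    exact hpr ((Nat.prime_dvd_prime_iff_eq hp hr).1 h1)
  have hrk := Nat.div_add_mod r m
  have hn : r + m * (r / m) + (p - 1) < p * r := by
    rcases Nat.lt_or_ge 2 p with h3 | h3
    · have h4 : 3 * r ≤ p * r := Nat.mul_le_mul_right r h3
      have h5 : p * r = (p - 2) * r + 2 * r := by
        rw [← Nat.add_mul, Nat.sub_add_cancel hp2]
      have h6 : (p - 2) * 2 ≤ (p - 2) * r := Nat.mul_le_mul_left _ hr2
      omega
    · have h4 : p = 2 := le_antisymm h3 hp2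
      have h5 : r % m ≠ 1 := fun h6 => h ⟨h4, h6⟩
      rw [h4]
      omega
  rw [coeff_B' hp hq hr hpq hpr hqr _ (by omega)]
  have key : ∀ i ∈ Finset.range p,
      PowerSeries.coeff (r + m * (r / m) + (p - 1) - i) (G m (p * r) q r) ≤
        if i = p - 1 then -1 else 0 := by
    intro i hi
    have hi' := Finset.mem_range.1 hi
    have e1 : r + m * (r / m) + (p - 1) - i = r + m * (r / m) + (p - 1 - i) := by omega
    rw [e1]
    have hw := G_window (e := p * r) (i := p - 1 - i) (q := q) hq.pos hp.pos hmp hρ (by omega)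
      (by omega)
    split_ifs with h9
    · exact hw.2 (by omega)
    · exact hw.1
  have hsum := Finset.sum_le_sum key
  rw [Finset.sum_ite_eq' (Finset.range p) (p - 1), if_pos (Finset.mem_range.2 (by omega))] at hsum
  linarith

theorem mod_iff {q r : ℕ} (hq : q.Prime) (hr : r.Prime) (h2q : 2 ≠ q) (h2r : 2 ≠ r) :
    r % (2 * q) = 1 ↔ r % q = 1 := by
  have hro : r % 2 = 1 := (hr.eq_two_or_odd).resolve_left (fun h => h2r h.symm)
  have hqo : q % 2 = 1 := (hq.eq_two_or_odd).resolve_left (fun h => h2q h.symm)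
  have hq2 := hq.two_le
  constructor
  · intro h
    have h1 : r % (2 * q) % q = r % q := Nat.mod_mod_of_dvd r (Dvd.intro_left 2 rfl)
    rw [h] at h1
    rw [← h1]
    exact Nat.mod_eq_of_lt (by omega)
  · intro h
    have hc : Nat.Coprime 2 q := (Nat.coprime_primes Nat.prime_two hq).2 h2q
    have h1 : r ≡ 1 [MOD 2 * q] := by
      apply (Nat.modEq_and_modEq_iff_modEq_mul hc).1
      refine ⟨hro, ?_⟩
      unfold Nat.ModEq
      rw [h, Nat.mod_eq_of_lt (by omega : 1 < q)]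
    unfold Nat.ModEq at h1
    rw [h1]
    exact Nat.mod_eq_of_lt (by omega)

theorem good_iff {p q r : ℕ} (hp : p.Prime) (hq : q.Prime) (hr : r.Prime) (hpq : p ≠ q)
    (hpr : p ≠ r) (hqr : q ≠ r) : GoodPair p q r (2, 2, 1, 1) ↔ (p = 2 ∧ r % q = 1) := by
  constructor
  · rintro ⟨_, hB⟩
    by_contra hc
    have h1 : ¬ (p = 2 ∧ r % (p * q) = 1) := by
      rintro ⟨rfl, h2⟩
      exact hc ⟨rfl, (mod_iff hq hr hpq hpr).1 h2⟩
    have h2 := B'_neg hp hq hr hpq hpr hqr h1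
    have h3 := hB (r + p * q * (r / (p * q)) + (p - 1) + 1)
    rw [B_eq, coeff_X_mul] at h3
    omega
  · rintro ⟨rfl, h⟩
    refine ⟨A_NN hp hq hr hpq hpr hqr, ?_⟩
    rw [B_eq]
    exact NN_mul NN_X (B'_NN hq hr hpq hpr hqr ((mod_iff hq hr hpq hpr).2 h))

theorem swap (p q r : ℕ) : GoodPair p q r (2, 1, 2, 1) ↔ GoodPair q p r (2, 2, 1, 1) := by
  unfold GoodPair A B M bar
  rw [mul_comm q p]
  norm_num only
  constructor
  · rintro ⟨h1, h2⟩
    refine ⟨fun n => ?_, fun n => ?_⟩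
    · convert h1 n using 2
      ring
    · convert h2 n using 2
      ring
  · rintro ⟨h1, h2⟩
    refine ⟨fun n => ?_, fun n => ?_⟩
    · convert h1 n using 2
      ring
    · convert h2 n using 2
      ring

/-- **The exact criterion.**  The tuples `(2, 2, 1, 1)` and `(2, 1, 2, 1)` are in `S`.  For distinct
primes `p`, `q`, `r` both members of the pair of `(2, 2, 1, 1)` have nonnegative coefficients if and
only if `p = 2` and `r ≡ 1` modulo `q`, and both members of the pair of `(2, 1, 2, 1)` have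
nonnegative coefficients if and only if `q = 2` and `r ≡ 1` modulo `p`.  For every odd prime `q` there
are infinitely many primes `r` such that the pair of `(2, 2, 1, 1)` for `2, q, r` is a pair of dice. -/
theorem result :
    ((2, 2, 1, 1) ∈ S ∧ (2, 1, 2, 1) ∈ S) ∧
    (∀ p q r : ℕ, p.Prime → q.Prime → r.Prime → p ≠ q → p ≠ r → q ≠ r →
      (GoodPair p q r (2, 2, 1, 1) ↔ (p = 2 ∧ r % q = 1)) ∧
      (GoodPair p q r (2, 1, 2, 1) ↔ (q = 2 ∧ r % p = 1))) ∧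
    ∀ q : ℕ, q.Prime → q ≠ 2 →
      {r : ℕ | r.Prime ∧ r ≠ 2 ∧ r ≠ q ∧ GoodPair 2 q r (2, 2, 1, 1)}.Infinite := by
  refine ⟨⟨?_, ?_⟩, ?_, ?_⟩
  · refine ⟨by norm_num, by norm_num, ?_, by decide⟩
    rintro (h | h | h | h | ⟨b, c, _, _, _, h⟩) <;> simp [Prod.ext_iff] at h
  · refine ⟨by norm_num, by norm_num, ?_, by decide⟩
    rintro (h | h | h | h | ⟨b, c, _, _, _, h⟩) <;> simp [Prod.ext_iff] at h
  · intro p q r hp hq hr hpq hpr hqr
    refine ⟨good_iff hp hq hr hpq hpr hqr, ?_⟩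
    rw [swap]
    exact good_iff hq hp hr hpq.symm hqr hpr
  · intro q hq hq2
    have : NeZero q := ⟨hq.ne_zero⟩
    have h1 : {r : ℕ | r.Prime ∧ (r : ZMod q) = 1}.Infinite :=
      Nat.infinite_setOfPred_prime_and_eq_mod isUnit_one
    have h2 : ({r : ℕ | r.Prime ∧ (r : ZMod q) = 1} \ {2, q}).Infinite :=
      h1.sdiff (Set.toFinite _)
    refine h2.mono ?_
    rintro r ⟨⟨hr, hr1⟩, hr2⟩
    simp only [Set.mem_insert_iff, Set.mem_singleton_iff, not_or] at hr2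
    have hq2' := hq.two_le
    have h3 : r % q = 1 := by
      have h4 : (r : ZMod q) = ((1 : ℕ) : ZMod q) := by rw [hr1, Nat.cast_one]
      rw [ZMod.natCast_eq_natCast_iff] at h4
      unfold Nat.ModEq at h4
      rw [h4]
      exact Nat.mod_eq_of_lt (by omega)
    exact ⟨hr, hr2.1, hr2.2, (good_iff Nat.prime_two hq hr (Ne.symm hq2) (Ne.symm hr2.1)
      (Ne.symm hr2.2)).2 ⟨rfl, h3⟩⟩

end Pool.Agent.Results.MP_eda2d2_co.ExactCriterion
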